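import Pool.Agent.H413.G.R_seed8.H494R3.NK.Stmts

/-! Task TaskSum of project H494-NK. -/

set_option autoImplicit false

namespace Pool.Agent.H719R4.NK

open Pool.Agent.H494R3.NK

universe u

theorem s1_mul {R : Type u} [NonUnitalRing R] (a b : R) : s1 a * s1 b = s1 (a * b) := by
  ext i j
  rw [Matrix.mul_apply]
  simp [s1]

theorem s1_zero {R : Type u} [NonUnitalRing R] : s1 (0 : R) = 0 := rfl

theorem s1_add {R : Type u} [NonUnitalRing R] (a b : R) : s1 (a + b) = s1 a + s1 b := rfl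

theorem eqv_add {R : Type u} [NonUnitalRing R] {e f : R} (he : e * e = e) (hf : f * f = f)
    (h1 : e * f = 0) (h2 : f * e = 0) :
    Eqv (s1 (e + f)) (Matrix.fromBlocks (s1 e) 0 0 (s1 f)) := by
  refine ⟨Matrix.fromCols (s1 e) (s1 f), Matrix.fromRows (s1 e) (s1 f), ?_, ?_⟩
  · rw [colrow, s1_mul, s1_mul, he, hf, s1_add]
  · rw [rowcol, s1_mul, s1_mul, s1_mul, s1_mul, he, hf, h1, h2, s1_zero]

theorem taskSum : TaskSum.{u} := by
  intro R _ e f he hf hef h1 h2
  refine VV.mk_eq.2 ?_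
  have h3 := Eqv.blk (s1_idem he) (s1_idem hf)
  exact Eqv.trans (s1_idem hef) (blk_idem (s1_idem he) (s1_idem hf)) (eqv_add he hf h1 h2) h3

end Pool.Agent.H719R4.NK
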